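import Pool.Agent.helper18.HG.Spec

set_option autoImplicit false

namespace Pool.Agent.helper18.HG

open Finset

theorem VDW : VDW_stmt := by
  classical
  intro k r
  obtain ⟨ι, hι, h⟩ := Combinatorics.Line.exists_mono_in_high_dimension (Fin k) (Fin r)
  refine ⟨Fintype.card ι * k, fun f => ?_⟩
  rcases Nat.eq_zero_or_pos k with hk | hk
  · subst hk
    exact ⟨0, 1, le_refl _, fun j hj => absurd hj (Nat.not_lt_zero j)⟩
  obtain ⟨l, c, hc⟩ := h (fun v => f (∑ i, (v i : ℕ)))
  have key : ∀ x : Fin k, ∑ i, ((l x i : Fin k) : ℕ) =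
      (∑ i, ((l.idxFun i).elim 0 (fun y => (y : ℕ)))) + x * (univ.filter (fun i => l.idxFun i = none)).card := by
    intro x
    rw [Finset.card_filter, Finset.mul_sum, ← Finset.sum_add_distrib]
    refine Finset.sum_congr rfl fun i _ => ?_
    cases hi : l.idxFun i with
    | none =>
      rw [Combinatorics.Line.apply_none l x i hi]
      simp
    | some y =>
      rw [Combinatorics.Line.apply_some hi]
      simp
  refine ⟨∑ i, ((l.idxFun i).elim 0 (fun y => (y : ℕ))), (univ.filter (fun i => l.idxFun i = none)).card, ?_, ?_⟩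
  · obtain ⟨i, hi⟩ := l.proper
    exact Finset.card_pos.2 ⟨i, by simpa using hi⟩
  · intro j hj
    have h0 := key ⟨0, hk⟩
    have h1 := key ⟨j, hj⟩
    have hc0 := hc ⟨0, hk⟩
    have hc1 := hc ⟨j, hj⟩
    simp only at h0 h1 hc0 hc1
    rw [zero_mul, add_zero] at h0
    refine ⟨?_, ?_⟩
    · rw [← h1]
      refine (Finset.sum_le_card_nsmul univ _ k fun i _ => (l ⟨j, hj⟩ i).2.le).trans ?_
      rw [Finset.card_univ, smul_eq_mul]
    · rw [← h1, ← h0, hc1, hc0]

end Pool.Agent.helper18.HG
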